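import Mathlib
import Pool.Agent.Q188.DE.Full

/-!
# MP_efe010_an: a parameter pair below the curve with only convergent solutions

For `A = 99/100`, `α = 1` one has `0 < A < 1` and `0 < α < α_+(A)`, and every nonnegative
solution of `x_{n+1} = (α + x_{n-2}) / (A + x_n)` converges to the equilibrium.
The proof: boundedness, then full limiting sequences through the upper and lower limit `S`, `I`;
`S (A + I) ≤ 1 + S` and `I (A + S) ≥ 1 + I` force `y₁` close to `I`, `y₃` close to `S`,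
the next relation forces `y₂` close to `S`, and the next one forces `y₃` close to `I`, so `S = I`.
The sequence is indexed from `0`, so that the recurrence reads
`x (n+3) = (α + x n) / (A + x (n+2))`.
-/

set_option autoImplicit false

open Set Filter Topology

namespace Pool.Agent.Results.MP_efe010_an.StripConvergence

lemma bounded {x : ℕ → ℝ} (h0 : ∀ n, 0 ≤ x n)
    (hx : ∀ n, x (n + 3) * (99 / 100 + x (n + 2)) = 1 + x n) : ∃ M, ∀ n, x n ≤ M := by
  have key : ∀ n, x (n + 5) ≤ max (x (n + 2)) (max (x n) 103) := by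
    intro n
    by_contra hcon
    simp only [le_max_iff, not_or, not_le] at hcon
    obtain ⟨h1, h2, h3⟩ := hcon
    have e1 := hx (n + 2)
    have e2 := hx (n + 1)
    have e3 := hx n
    simp only [Nat.add_assoc, Nat.reduceAdd] at e1 e2 e3
    have p0 := h0 n
    have p1 := h0 (n + 1)
    have p2 := h0 (n + 2)
    have p3 := h0 (n + 3)
    have p4 := h0 (n + 4)
    have p5 := h0 (n + 5)
    set y := x (n + 2) with hy
    set t := x (n + 5) with ht
    -- y ≥ 100
    have hy100 : 100 ≤ y := by nlinarith [mul_nonneg p5 p4]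
    -- x (n+4) ≤ 0.02
    have h4 : x (n + 4) ≤ 2 / 100 := by
      by_contra hc
      push Not at hc
      nlinarith
    -- x (n+3) ≥ 49
    have h5 : 49 ≤ x (n + 3) := by
      by_contra hc
      push Not at hc
      nlinarith
    nlinarith
  refine ⟨max 103 (max (x 0) (max (x 1) (max (x 2) (max (x 3) (x 4))))), fun n => ?_⟩
  induction n using Nat.strong_induction_on with
  | _ n ih =>
    by_cases hn : n < 5
    · interval_cases n <;> simp
    · obtain ⟨m, rfl⟩ : ∃ m, n = m + 5 := ⟨n - 5, by omega⟩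
      refine (key m).trans (max_le (ih _ (by omega)) (max_le (ih _ (by omega)) (le_max_left _ _)))

/-- For `A = 99/100` and `α = 1` every nonnegative solution converges to the equilibrium. -/
lemma conv {x : ℕ → ℝ} (h0 : ∀ n, 0 ≤ x n)
    (hx : ∀ n, x (n + 3) * (99 / 100 + x (n + 2)) = 1 + x n) :
    Tendsto x atTop (𝓝 ((1 / 100 + √((1 / 100) ^ 2 + 4)) / 2)) := by
  obtain ⟨M, hM⟩ := bounded h0 hx
  obtain ⟨S, I, y, z, φ, ψ, hφ, hψ, hy, hz, hy0, hz0, hyI, hzI, hlim⟩ :=
    Pool.Agent.Q188.DE.full (x := x) (a := 0) (b := M) fun n => ⟨h0 n, hM n⟩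
  have rel : ∀ {θ : ℕ → ℕ} {w : ℕ → ℝ}, Tendsto θ atTop atTop →
      (∀ j, Tendsto (fun k => x (θ k - j)) atTop (𝓝 (w j))) →
      ∀ j, w j * (99 / 100 + w (j + 1)) = 1 + w (j + 3) := by
    intro θ w hθ hw j
    have t1 := (hw j).mul ((tendsto_const_nhds (x := (99 / 100 : ℝ))).add (hw (j + 1)))
    have t2 := (tendsto_const_nhds (x := (1 : ℝ))).add (hw (j + 3))
    refine tendsto_nhds_unique (t1.congr' ?_) t2
    filter_upwards [hθ.eventually_ge_atTop (j + 3)] with k hk
    have := hx (θ k - (j + 3))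
    rw [show θ k - (j + 3) + 3 = θ k - j by omega, show θ k - (j + 3) + 2 = θ k - (j + 1) by omega]
      at this
    exact this
  have ry := rel hφ hy
  have rz := rel hψ hz
  have I0 : 0 ≤ I := by
    have := hy0 ▸ (hyI 0)
    have h1 : 0 ≤ z 0 := ge_of_tendsto' (hz 0) fun k => h0 _
    rw [hz0] at h1
    exact h1
  have hIS : I ≤ S := (hyI 0).1.trans (hyI 0).2
  have r0 := ry 0
  have r1 := ry 1
  have r2 := ry 2
  have s0 := rz 0
  simp only [Nat.reduceAdd] at r0 r1 r2 s0
  rw [hy0] at r0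
  rw [hz0] at s0
  obtain ⟨a1, b1⟩ := hyI 1
  obtain ⟨a2, b2⟩ := hyI 2
  obtain ⟨a3, b3⟩ := hyI 3
  obtain ⟨a4, b4⟩ := hyI 4
  obtain ⟨a5, b5⟩ := hyI 5
  obtain ⟨c1, d1⟩ := hzI 1
  obtain ⟨c3, d3⟩ := hzI 3
  -- basic inequalities
  have e1 : S * I ≤ 1 + S / 100 := by nlinarith
  have e2 : 1 + I / 100 ≤ S * I := by nlinarith
  have S1 : 1 ≤ S := by nlinarith
  have I1 : I ≤ 101 / 100 := by nlinarith
  -- u and v
  have huv : S * (y 1 - I) + (S - y 3) ≤ (S - I) / 100 := by nlinarith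
  have hu : S - y 3 ≤ (S - I) / 100 := by nlinarith
  have hv : y 1 - I ≤ (S - I) / 100 := by nlinarith
  have hv' : S * (y 1 - I) ≤ (S - I) / 100 := by nlinarith
  have hv1 : y 1 - I ≤ 1 / 100 := by nlinarith
  have hy2 : y 2 * (99 / 100) ≤ 1 := by
    by_contra hc
    push Not at hc
    nlinarith
  have hy1 : 1 + I ≤ y 1 * (99 / 100 + 100 / 99) := by nlinarith
  have hI : 97 / 100 ≤ I := by nlinarith
  have hS : S ≤ 105 / 100 := by nlinarith
  -- v'
  have k1 : (S - y 2) * (97 / 100) ≤ (S - I) * (31 / 1000) := by nlinarith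
  have k2 : S - y 2 ≤ (S - I) * (4 / 100) := by nlinarith
  have k3 : (y 3 - I) * (y 2) ≤ (S - I) * (1 / 100) + (S - y 2) * (99 / 100 + I) := by nlinarith
  have k4 : y 3 - I ≤ (S - I) * (1 / 2) := by nlinarith
  have hd : S = I := by
    have : S - I ≤ 0 := by linarith
    linarith
  have hconv := hlim hd.symm
  have hSe : S ^ 2 - S / 100 - 1 = 0 := by
    rw [← hd] at e1 e2
    nlinarith
  have hSv : S = (1 / 100 + √((1 / 100) ^ 2 + 4)) / 2 := by
    have : √((1 / 100) ^ 2 + 4) = 2 * S - 1 / 100 := by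
      rw [Real.sqrt_eq_iff_mul_self_eq (by positivity) (by linarith)]
      nlinarith
    rw [this]
    ring
  rw [← hSv]
  exact hconv

/-- There are `A ∈ (0,1)` and `α ∈ (0, α_+(A))` such that every solution of
`x_{n+1} = (α + x_{n-2}) / (A + x_n)` with nonnegative initial values converges to the
equilibrium. -/
theorem _root_.Pool.Agent.Results.MP_efe010_an.StripConvergence.result :
    ∃ A ∈ Ioo (0 : ℝ) 1, ∃ α : ℝ, 0 < α ∧ α < (2 - A + √(5 * A ^ 2 - 4 * A ^ 3)) / 2 ∧
      ∀ x : ℕ → ℝ, 0 ≤ x 0 → 0 ≤ x 1 → 0 ≤ x 2 →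
        (∀ n, x (n + 3) = (α + x n) / (A + x (n + 2))) →
        Tendsto x atTop (𝓝 ((1 - A + √((1 - A) ^ 2 + 4 * α)) / 2)) := by
  refine ⟨99 / 100, ⟨by norm_num, by norm_num⟩, 1, one_pos, ?_, fun x i0 i1 i2 hx => ?_⟩
  · have : (99 / 100 : ℝ) < √(5 * (99 / 100) ^ 2 - 4 * (99 / 100) ^ 3) :=
      Real.lt_sqrt_of_sq_lt (by norm_num)
    linarith
  · have h0 : ∀ n, 0 ≤ x n ∧ 0 ≤ x (n + 1) ∧ 0 ≤ x (n + 2) := by
      intro n
      induction n with
      | zero => exact ⟨i0, i1, i2⟩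
      | succ n ih =>
        refine ⟨ih.2.1, ih.2.2, ?_⟩
        rw [show n + 1 + 2 = n + 3 by ring, hx n]
        have := ih.1
        have := ih.2.2
        positivity
    have := conv (x := x) (fun n => (h0 n).1) fun n => by
      rw [hx n]
      have : 99 / 100 + x (n + 2) ≠ 0 := by linarith [(h0 n).2.2]
      exact div_mul_cancel₀ _ this
    rw [show (1 - 99 / 100 : ℝ) = 1 / 100 by norm_num, mul_one]
    exact this

end Pool.Agent.Results.MP_efe010_an.StripConvergence
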